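import Pool.Agent.Helper18.Step.Side2

/-! STEP: two generic solutions of the same degree are conjugate. -/

set_option autoImplicit false
set_option linter.all false
set_option linter.overlappingInstances false

open Module FF SF

namespace Step

section Cl

variable {F Ω : Type} [Field F] [Field Ω] [Algebra F Ω]

theorem cl_apply {S T : Set Ω} (τ : Ω ≃ₐ[F] Ω) (h : ∀ s ∈ S, τ s ∈ cl F T) {x : Ω}
    (hx : x ∈ cl F S) : τ x ∈ cl F T := by
  let K : IntermediateField F Ω := (cl F T).comap (τ : Ω →ₐ[F] Ω)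
  have hK : Closed K := by
    intro y hy
    show τ y ∈ cl F T
    apply closed_cl
    let f : K →+* cl F T :=
      { toFun := fun k => ⟨τ k.1, k.2⟩
        map_one' := Subtype.ext (map_one τ)
        map_mul' := fun a b => Subtype.ext (map_mul τ _ _)
        map_zero' := Subtype.ext (map_zero τ)
        map_add' := fun a b => Subtype.ext (map_add τ _ _) }
    exact hy.ringHom_of_comp_eq f (τ : Ω →+* Ω) f.injective (by ext; rfl)
  exact cl_le hK (fun s hs => h s hs) hx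

theorem ind_transport {ι : Type*} {S T : Set Ω} (τ : Ω ≃ₐ[F] Ω) (h1 : ∀ s ∈ S, τ s ∈ cl F T)
    (h2 : ∀ t ∈ T, τ⁻¹ t ∈ cl F S) {u : ι → Ω} (hu : AlgebraicIndependent (cl F S) u) :
    AlgebraicIndependent (cl F T) (fun i => τ (u i)) := by
  let f : cl F S →+* cl F T :=
      { toFun := fun k => ⟨τ k.1, cl_apply τ h1 k.2⟩
        map_one' := Subtype.ext (map_one τ)
        map_mul' := fun a b => Subtype.ext (map_mul τ _ _)
        map_zero' := Subtype.ext (map_zero τ)
        map_add' := fun a b => Subtype.ext (map_add τ _ _) }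
  refine hu.ringHom_of_comp_eq f (τ : Ω →+* Ω) ?_ τ.injective (by ext; rfl)
  rintro ⟨y, hy⟩
  refine ⟨⟨τ⁻¹ y, cl_apply τ⁻¹ h2 hy⟩, ?_⟩
  apply Subtype.ext
  exact τ.apply_symm_apply y

theorem isAlgebraic_cl_empty : Algebra.IsAlgebraic F (cl F (∅ : Set Ω)) := by
  refine ⟨fun x => ?_⟩
  have h1 : IsAlgebraic (IntermediateField.adjoin F (∅ : Set Ω)) (x : Ω) := mem_cl.1 x.2
  have h2 : Algebra.IsAlgebraic F (IntermediateField.adjoin F (∅ : Set Ω)) := by
    apply IntermediateField.isAlgebraic_adjoin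
    intro y hy
    exact absurd hy (Set.notMem_empty y)
  have h3 : IsAlgebraic F (x : Ω) := h1.restrictScalars F
  exact (isAlgebraic_algebraMap_iff (R := F) (S := cl F (∅ : Set Ω)) (A := Ω)
    (algebraMap (cl F (∅ : Set Ω)) Ω).injective).1 h3

theorem ind_cl_empty {ι : Type*} {u : ι → Ω} (hu : AlgebraicIndependent F u) :
    AlgebraicIndependent (cl F (∅ : Set Ω)) u := by
  have := isAlgebraic_cl_empty (F := F) (Ω := Ω)
  exact hu.extendScalars _

end Cl

variable {F Ω L M : Type} [Field F] [Field Ω] [Algebra F Ω] [Field L] [Algebra F L]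
    [Field M] [Algebra Ω M] [Algebra L M] [IsAlgClosed Ω] [CharZero Ω] [CharZero F] [IsFF F L]
    [IsFF Ω M] (m : Model F Ω L M)

/-- moving a basis of a Riemann-Roch space -/
theorem exists_moved_basis (σ : Ω ≃ₐ[F] Ω) {D D' : Place Ω M →₀ ℤ}
    (hD : ∀ P, D' (m.actP σ P) = D P) {N : ℕ} (b : Basis (Fin N) Ω (LL D)) :
    ∃ b1 : Basis (Fin N) Ω (LL D'), (∀ j, (b1 j : M) = m.act σ (b j)) ∧
      ∀ (f : LL D) (f' : LL D'), (f' : M) = m.act σ f → ∀ j, b1.repr f' j = σ (b.repr f j) := by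
  have hD' : ∀ P, D (m.actP σ⁻¹ P) = D' P := by
    intro P
    rw [← hD, actP_act_inv]
  let v : Fin N → LL D' := fun j => ⟨m.act σ (b j), act_mem_LL m hD (b j).2⟩
  have hli : LinearIndependent Ω v := by
    rw [Fintype.linearIndependent_iff]
    intro a ha j
    have h1 : (∑ i, σ⁻¹ (a i) • b i : LL D) = 0 := by
      apply Subtype.ext
      have h2 := congrArg (fun f : LL D' => m.act σ⁻¹ (f : M)) ha
      simp only [Submodule.coe_sum, Submodule.coe_smul, map_sum, act_smul, v, act_inv_act,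
        Submodule.coe_zero, map_zero] at h2 ⊢
      exact h2
    have h3 := Fintype.linearIndependent_iff.1 b.linearIndependent _ h1 j
    have h4 := congrArg σ h3
    rw [map_zero] at h4
    rw [← h4]
    exact (σ.apply_symm_apply (a j)).symm
  have key : ∀ (f : LL D) (f' : LL D'), (f' : M) = m.act σ f → f' = ∑ j, σ (b.repr f j) • v j := by
    intro f f' hf
    apply Subtype.ext
    rw [hf]
    have h1 := congrArg Subtype.val (b.sum_repr f)
    simp only [Submodule.coe_sum, Submodule.coe_smul] at h1 ⊢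
    conv_lhs => rw [← h1]
    rw [map_sum]
    refine Finset.sum_congr rfl fun j _ => ?_
    rw [act_smul]
  have hspan : ⊤ ≤ Submodule.span Ω (Set.range v) := by
    intro f' _
    have h1 := key ⟨m.act σ⁻¹ f', act_mem_LL m hD' f'.2⟩ f' (act_act_inv m σ _).symm
    rw [h1]
    exact Submodule.sum_mem _ fun j _ => Submodule.smul_mem _ _ (Submodule.subset_span ⟨j, rfl⟩)
  let b1 := Basis.mk hli hspan
  have hb1 : ∀ j, b1 j = v j := fun j => Basis.mk_apply hli hspan j
  refine ⟨b1, fun j => by rw [hb1], ?_⟩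
  intro f f' hf j
  have h1 := key f f' hf
  simp only [← hb1] at h1
  rw [h1, b1.repr_sum_self]

theorem conj [Countable F] [Uncountable Ω] (ξ : L) (hξ : Transcendental F ξ) {e : ℕ} {x : M}
    (hx : ∀ σ, m.act σ x = x)
    {h h' : ZMod 3 → M} {q q' : Fin e → Place Ω M} (H : GenSol m ξ e x h q)
    (H' : GenSol m ξ e x h' q') (τ₁ : Ω ≃ₐ[F] Ω) (hτ₁ : Fx (cl F (∅ : Set Ω)) τ₁)
    (hq : ∀ i, m.actP τ₁ (q i) = q' i) :
    ∃ τ : Ω ≃ₐ[F] Ω, Fx (cl F (∅ : Set Ω)) τ ∧ ∀ j, m.act τ (h j) = h' j := by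
  classical
  set S : Set Ω := Set.range fun i => val (q i) (algebraMap L M ξ) with hS
  set S' : Set Ω := Set.range fun i => val (q' i) (algebraMap L M ξ) with hS'
  have hval : ∀ i, val (q' i) (algebraMap L M ξ) = τ₁ (val (q i) (algebraMap L M ξ)) := by
    intro i
    have h1 := m.val_actP τ₁ (q i) (H.reg i)
    rw [m.act_L, hq] at h1
    exact h1
  have hSS' : ∀ s ∈ S, τ₁ s ∈ cl F S' := by
    rintro _ ⟨i, rfl⟩
    exact subset_cl _ ⟨i, hval i⟩
  have hS'S : ∀ s ∈ S', τ₁⁻¹ s ∈ cl F S := by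
    rintro _ ⟨i, rfl⟩
    refine subset_cl _ ⟨i, ?_⟩
    show _ = τ₁⁻¹ (val (q' i) (algebraMap L M ξ))
    rw [hval]
    exact (τ₁.symm_apply_apply _).symm
  have hqfix : ∀ σ, Fx (cl F S) σ → ∀ i, m.actP σ (q i) = q i := by
    intro σ hσ i
    refine place_fixed_of_val m ξ hξ (closed_cl S) (fun _ => ?_) hσ
    exact subset_cl _ ⟨i, rfl⟩
  have hptsfix : ∀ σ, Fx (cl F S) σ → ∀ P, pts q (m.actP σ P) = pts q P := by
    intro σ hσ P
    exact Pool.Agent.Helper740.Rank.pts_fixed m q σ (hqfix σ hσ) P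
  obtain ⟨b, hb⟩ := exists_fixed_basis m (fun σ => Fx (cl F S) σ) (pts q) hptsfix
  have hmove : ∀ P, pts q' (m.actP τ₁ P) = pts q P := by
    intro P
    unfold pts
    rw [Finsupp.finsetSum_apply, Finsupp.finsetSum_apply]
    refine Finset.sum_congr rfl fun i _ => ?_
    rw [← hq i, Finsupp.single_apply, Finsupp.single_apply]
    have : (m.actP τ₁ (q i) = m.actP τ₁ P) ↔ q i = P :=
      ⟨fun h => Pool.Agent.Helper740.Rank.actP_inj m τ₁ h, fun h => by rw [h]⟩
    simp only [this]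
  obtain ⟨b1, hb1, hb1r⟩ := exists_moved_basis m τ₁ hmove b
  have hb1fix : ∀ σ, Fx (cl F S') σ → ∀ j, m.act σ (b1 j : M) = b1 j := by
    intro σ hσ j
    have h1 : Fx (cl F S) (τ₁⁻¹ * σ * τ₁) := by
      intro k hk
      rw [AlgEquiv.mul_apply, AlgEquiv.mul_apply, hσ _ (cl_apply τ₁ hSS' hk)]
      exact τ₁.symm_apply_apply k
    have h2 := hb _ h1 j
    rw [act_mul, act_mul] at h2
    have h3 := congrArg (m.act τ₁) h2
    rw [act_act_inv, ← hb1] at h3
    exact h3
  have hgen := H.gen _ b hb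
  have hgen' := H'.gen _ b1 hb1fix
  have hgen1 := ind_transport τ₁ hSS' hS'S hgen
  have hcount : Countable (cl F S') := countable_cl (Set.countable_range _)
  obtain ⟨τ₂, hτ₂, hτ₂u⟩ := exists_conj_of_ind hgen1 hgen'
  have hfix2 : ∀ (f : LL (pts q)) (f' : LL (pts q')), (∀ j, τ₂ (τ₁ (b.repr f j)) = b1.repr f' j) →
      m.act (τ₂ * τ₁) (f : M) = f' := by
    intro f f' hf
    rw [act_mul]
    have hmem : m.act τ₁ (f : M) ∈ LL (pts q') := act_mem_LL m hmove f.2
    have h1 := hb1r f ⟨_, hmem⟩ rfl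
    have h2 := congrArg Subtype.val (b1.sum_repr ⟨_, hmem⟩)
    simp only [Submodule.coe_sum, Submodule.coe_smul] at h2
    rw [← h2, map_sum]
    have h3 := congrArg Subtype.val (b1.sum_repr f')
    simp only [Submodule.coe_sum, Submodule.coe_smul] at h3
    rw [← h3]
    refine Finset.sum_congr rfl fun j _ => ?_
    rw [act_smul, hb1fix τ₂ hτ₂, h1, hf]
  have h0 : m.act (τ₂ * τ₁) (h 0) = h' 0 :=
    hfix2 ⟨h 0, H.mem1⟩ ⟨h' 0, H'.mem1⟩ (fun j => by
      have := hτ₂u (true, j)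
      simpa using this)
  have h01 : m.act (τ₂ * τ₁) (h 0 * h 1) = h' 0 * h' 1 :=
    hfix2 ⟨h 0 * h 1, H.mem2⟩ ⟨h' 0 * h' 1, H'.mem2⟩ (fun j => by
      have := hτ₂u (false, j)
      simpa using this)
  have h1 : m.act (τ₂ * τ₁) (h 1) = h' 1 := by
    rw [map_mul, h0] at h01
    exact mul_left_cancel₀ (H'.ne 0) h01
  have h2 : m.act (τ₂ * τ₁) (h 2) = h' 2 := by
    have h3 := congrArg (m.act (τ₂ * τ₁)) H.prod
    rw [hx, ← H'.prod, map_mul, h01] at h3
    exact mul_left_cancel₀ (mul_ne_zero (H'.ne 0) (H'.ne 1)) h3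
  refine ⟨τ₂ * τ₁, Fx.mul (hτ₂.mono (cl_empty_le _ (closed_cl _))) hτ₁, ?_⟩
  have hcases : ∀ j : ZMod 3, j = 0 ∨ j = 1 ∨ j = 2 := by decide
  intro j
  rcases hcases j with rfl | rfl | rfl
  · exact h0
  · exact h1
  · exact h2

end Step
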