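import Mathlib

/-! STEP: equivariant functionals on rational functions. -/

set_option autoImplicit false

namespace Step

section Rat

variable {Ω : Type*} [Field Ω]

/-- The action of a field endomorphism on rational functions, through the coefficients. -/
noncomputable def rm (σ : Ω →+* Ω) : RatFunc Ω →+* RatFunc Ω :=
  RatFunc.mapRingHom (Polynomial.mapRingHom σ)
    (nonZeroDivisors_le_comap_nonZeroDivisors_of_injective _ (Polynomial.map_injective σ σ.injective))

theorem rm_poly (σ : Ω →+* Ω) (p : Polynomial Ω) :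
    rm σ (algebraMap (Polynomial Ω) (RatFunc Ω) p) =
      algebraMap (Polynomial Ω) (RatFunc Ω) (p.map σ) := by
  unfold rm
  rw [RatFunc.coe_mapRingHom_eq_coe_map]
  have := RatFunc.map_apply_div (R := Ω) (K := Ω) (Polynomial.mapRingHom σ)
    (nonZeroDivisors_le_comap_nonZeroDivisors_of_injective _
      (Polynomial.map_injective σ σ.injective)) p 1
  simpa using this

theorem rm_C (σ : Ω →+* Ω) (c : Ω) : rm σ (RatFunc.C c) = RatFunc.C (σ c) := by
  rw [← RatFunc.algebraMap_C, rm_poly, Polynomial.map_C, RatFunc.algebraMap_C]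

theorem rm_X (σ : Ω →+* Ω) : rm σ RatFunc.X = RatFunc.X := by
  rw [← RatFunc.algebraMap_X, rm_poly, Polynomial.map_X]

theorem ratFunc_hom_ext {A : Type*} [CommRing A] {f g : RatFunc Ω →+* A}
    (hC : ∀ c, f (RatFunc.C c) = g (RatFunc.C c)) (hX : f RatFunc.X = g RatFunc.X) : f = g := by
  apply IsLocalization.ringHom_ext (nonZeroDivisors (Polynomial Ω))
  apply Polynomial.ringHom_ext
  · intro c
    simpa using hC c
  · simpa using hX

/-- coefficientwise action on Laurent series -/
noncomputable def hm (σ : Ω →+* Ω) : LaurentSeries Ω →+* LaurentSeries Ω where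
  toFun x := x.map (σ : Ω →+ Ω)
  map_one' := HahnSeries.map_one (Γ := ℤ) σ.toMonoidWithZeroHom
  map_mul' x y := HahnSeries.map_mul (Γ := ℤ) (σ : Ω →ₙ+* Ω)
  map_zero' := by ext; simp
  map_add' x y := HahnSeries.map_add (Γ := ℤ) (σ : Ω →+ Ω)

theorem hm_coeff (σ : Ω →+* Ω) (x : LaurentSeries Ω) (m : ℤ) : (hm σ x).coeff m = σ (x.coeff m) :=
  rfl

/-- The inclusion of polynomials in Laurent series. -/
noncomputable def plau : Polynomial Ω →+* LaurentSeries Ω :=
  (HahnSeries.ofPowerSeries ℤ Ω).comp Polynomial.coeToPowerSeries.ringHom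

theorem plau_injective : Function.Injective (plau (Ω := Ω)) := by
  unfold plau
  rw [RingHom.coe_comp]
  exact HahnSeries.ofPowerSeries_injective.comp (Polynomial.coe_injective Ω)

/-- The Laurent expansion at the origin. -/
noncomputable def lau : RatFunc Ω →+* LaurentSeries Ω :=
  IsFractionRing.lift (A := Polynomial Ω) (plau_injective (Ω := Ω))

theorem lau_poly (p : Polynomial Ω) : lau (algebraMap (Polynomial Ω) (RatFunc Ω) p) = plau p :=
  IsFractionRing.lift_algebraMap _ _

theorem lau_C (c : Ω) : lau (RatFunc.C c) = HahnSeries.C c := by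
  rw [← RatFunc.algebraMap_C, lau_poly]
  simp [plau]

theorem lau_X : lau (RatFunc.X : RatFunc Ω) = HahnSeries.single 1 1 := by
  rw [← RatFunc.algebraMap_X, lau_poly]
  simp [plau]

theorem hm_lau (σ : Ω →+* Ω) (r : RatFunc Ω) : hm σ (lau r) = lau (rm σ r) := by
  have : (hm σ).comp (lau (Ω := Ω)) = (lau (Ω := Ω)).comp (rm σ) := by
    apply ratFunc_hom_ext
    · intro c
      rw [RingHom.comp_apply, RingHom.comp_apply, rm_C, lau_C, lau_C]
      exact HahnSeries.map_C (Γ := ℤ) c σ
    · rw [RingHom.comp_apply, RingHom.comp_apply, rm_X, lau_X]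
      ext m
      rw [hm_coeff]
      by_cases hm : m = 1
      · subst hm; simp
      · rw [HahnSeries.coeff_single_of_ne hm]; simp
  exact RingHom.congr_fun this r

/-- the functional: `m`-th coefficient of the Laurent expansion -/
noncomputable def lc (m : ℤ) : RatFunc Ω →ₗ[Ω] Ω where
  toFun r := (lau r).coeff m
  map_add' r s := by rw [map_add]; rfl
  map_smul' c r := by
    rw [RatFunc.smul_eq_C_mul, map_mul, lau_C, HahnSeries.C_mul_eq_smul]
    rfl

theorem lc_rm (m : ℤ) (σ : Ω →+* Ω) (r : RatFunc Ω) : lc m (rm σ r) = σ (lc m r) := by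
  show (lau (rm σ r)).coeff m = σ ((lau r).coeff m)
  rw [← hm_lau, hm_coeff]

theorem eq_zero_of_lc {r : RatFunc Ω} (h : ∀ m, lc m r = 0) : r = 0 := by
  have h1 : lau r = 0 := by
    ext m
    exact h m
  exact (map_eq_zero (lau (Ω := Ω))).1 h1

end Rat

end Step
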