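import Pool.Agent.SF.Model
import Pool.Agent.Helper18.Step.Gal
import Pool.Agent.Helper18.Step.Lau

/-! STEP: equivariant separating functionals on a model, invariant bases. -/

set_option autoImplicit false
set_option linter.all false
set_option linter.overlappingInstances false

open Module FF SF IntermediateField

namespace Step

section Basis

variable {F Ω L M : Type} [Field F] [Field Ω] [Algebra F Ω] [Field L] [Algebra F L]
    [Field M] [Algebra Ω M] [Algebra L M] (m : Model F Ω L M)

omit [Field F] [Field Ω] [Algebra F Ω] [Field L] [Algebra F L] [Field M] [Algebra Ω M] [Algebra L M] in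
theorem transc_iff_pow {K A : Type*} [Field K] [CommRing A] [Algebra K A] {x : A} :
    Transcendental K x ↔ LinearIndependent K (fun n : ℕ => x ^ n) := by
  constructor
  · intro h
    rw [linearIndependent_iff']
    intro s g hg i hi
    have h1 := (transcendental_iff.1 h) (∑ j ∈ s, Polynomial.monomial j (g j)) (by
      rw [map_sum, ← hg]
      refine Finset.sum_congr rfl fun j _ => ?_
      rw [Polynomial.aeval_monomial, Algebra.smul_def])
    have h2 := congrArg (fun p => p.coeff i) h1
    simp only [Polynomial.finsetSum_coeff, Polynomial.coeff_monomial, Polynomial.coeff_zero] at h2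
    rw [Finset.sum_ite_eq' s i] at h2
    simpa [hi] using h2
  · intro h
    rw [transcendental_iff]
    intro p hp
    rw [linearIndependent_iff'] at h
    have h1 := h (Finset.range (p.natDegree + 1)) (fun i => p.coeff i) (by
      rw [← Polynomial.aeval_eq_sum_range]; exact hp)
    ext i
    by_cases hi : i < p.natDegree + 1
    · exact h1 i (Finset.mem_range.2 hi)
    · rw [Polynomial.coeff_zero]
      exact Polynomial.coeff_eq_zero_of_natDegree_lt (by omega)

theorem transc (m : Model F Ω L M) {ξ : L} (hξ : Transcendental F ξ) :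
    Transcendental Ω (algebraMap L M ξ) := by
  rw [transc_iff_pow] at hξ ⊢
  have h2 := m.indep _ hξ
  simpa only [map_pow] using h2

theorem act_smul (σ : Ω ≃ₐ[F] Ω) (c : Ω) (f : M) : m.act σ (c • f) = σ c • m.act σ f := by
  rw [Algebra.smul_def, Algebra.smul_def, map_mul, m.act_const]

theorem adjoin_top {K : IntermediateField Ω M} (hK : Algebra.IsAlgebraic K M)
    (m : Model F Ω L M) : Submodule.span K (Set.range (algebraMap L M)) = ⊤ := by
  have h0 : ((Submonoid.closure (Set.range (algebraMap L M))) : Set M) = Set.range (algebraMap L M) := by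
    have : (Submonoid.closure (Set.range (algebraMap L M))) = MonoidHom.mrange (algebraMap L M : L →* M) := by
      apply Submonoid.closure_eq_of_le
      · rintro _ ⟨x, rfl⟩
        exact ⟨x, rfl⟩
      · rintro _ ⟨x, rfl⟩
        exact Submonoid.subset_closure ⟨x, rfl⟩
    rw [this]
    rfl
  have h1 : Subalgebra.toSubmodule (Algebra.adjoin K (Set.range (algebraMap L M))) =
      Submodule.span K (Set.range (algebraMap L M)) := by
    rw [Algebra.adjoin_eq_span, h0]
  rw [← h1]
  have h2 : Algebra.adjoin K (Set.range (algebraMap L M)) = ⊤ := by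
    rw [eq_top_iff]
    intro f _
    obtain ⟨p, q, hp, hq, hq0, rfl⟩ := m.frac f
    have h3 : ∀ r ∈ Submodule.span Ω (Set.range (algebraMap L M)),
        r ∈ Algebra.adjoin K (Set.range (algebraMap L M)) := by
      intro r hr
      induction hr using Submodule.span_induction with
      | mem x hx => exact Algebra.subset_adjoin hx
      | zero => exact zero_mem _
      | add x y _ _ hx hy => exact add_mem hx hy
      | smul c x _ hx =>
        rw [Algebra.smul_def]
        refine mul_mem ?_ hx
        exact (Algebra.adjoin K (Set.range (algebraMap L M))).algebraMap_mem (algebraMap Ω K c)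
    rw [div_eq_mul_inv]
    refine mul_mem (h3 p hp) ?_
    exact (Algebra.adjoin K (Set.range (algebraMap L M))).inv_mem_of_algebraic (x := ⟨q, h3 q hq⟩)
      (hK.isAlgebraic q)
  rw [h2]
  rfl

theorem exists_basis_L [CharZero Ω] [IsFF Ω M] (m : Model F Ω L M) {ξ : L}
    (hξ : Transcendental F ξ) :
    ∃ (ι : Type) (_ : Fintype ι) (b : Basis ι Ω⟮algebraMap L M ξ⟯ M) (l : ι → L),
      ∀ j, b j = algebraMap L M (l j) := by
  have ht := transc m hξ
  have hfin := IsFF.finite ht
  have halg := IsFF.isAlgebraic ht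
  have hs := adjoin_top halg m
  let b := Basis.ofSpan hs.ge
  have hb := Basis.ofSpan_subset hs.ge
  have : Finite _ := Module.Finite.finite_basis b
  have : ∀ j, ∃ l : L, b j = algebraMap L M l := by
    intro j
    obtain ⟨l, hl⟩ := hb ⟨j, rfl⟩
    exact ⟨l, hl.symm⟩
  choose l hl using this
  exact ⟨_, Fintype.ofFinite _, b, l, hl⟩

end Basis

section Functionals

variable {F Ω L M : Type} [Field F] [Field Ω] [Algebra F Ω] [Field L] [Algebra F L]
    [Field M] [Algebra Ω M] [Algebra L M] (m : Model F Ω L M)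

theorem act_eR (σ : Ω ≃ₐ[F] Ω) {ξ : L} (ht : Transcendental Ω (algebraMap L M ξ)) (r : RatFunc Ω) :
    m.act σ (RatFunc.algEquivOfTranscendental (algebraMap L M ξ) ht r : M) =
      (RatFunc.algEquivOfTranscendental (algebraMap L M ξ) ht (rm (σ : Ω →+* Ω) r) : M) := by
  set x := algebraMap L M ξ with hx
  let e := RatFunc.algEquivOfTranscendental x ht
  let f1 : RatFunc Ω →+* M := ((m.act σ : M →+* M).comp (algebraMap Ω⟮x⟯ M)).comp (e : RatFunc Ω →+* Ω⟮x⟯)
  let f2 : RatFunc Ω →+* M := ((algebraMap Ω⟮x⟯ M).comp (e : RatFunc Ω →+* Ω⟮x⟯)).comp (rm (σ : Ω →+* Ω))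
  have h : f1 = f2 := by
    apply ratFunc_hom_ext
    · intro c
      show m.act σ (algebraMap Ω⟮x⟯ M (e (RatFunc.C c))) = algebraMap Ω⟮x⟯ M (e (rm (σ : Ω →+* Ω) (RatFunc.C c)))
      rw [rm_C]
      have hc : ∀ c : Ω, algebraMap Ω⟮x⟯ M (e (RatFunc.C c)) = algebraMap Ω M c := by
        intro c
        have h1 : (RatFunc.C c : RatFunc Ω) = algebraMap Ω (RatFunc Ω) c := rfl
        rw [h1, AlgEquiv.commutes]
        rfl
      rw [hc, hc, m.act_const]
      rfl
    · show m.act σ (algebraMap Ω⟮x⟯ M (e RatFunc.X)) = algebraMap Ω⟮x⟯ M (e (rm (σ : Ω →+* Ω) RatFunc.X))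
      rw [rm_X]
      have hX : algebraMap Ω⟮x⟯ M (e RatFunc.X) = x := RatFunc.algEquivOfTranscendental_X x ht
      rw [hX, hx, m.act_L]
  exact RingHom.congr_fun h r

theorem exists_functionals [CharZero Ω] [IsFF Ω M] (m : Model F Ω L M) {ξ : L}
    (hξ : Transcendental F ξ) :
    ∃ (ι : Type) (lam : ι → M →ₗ[Ω] Ω), (∀ i (σ : Ω ≃ₐ[F] Ω) f, lam i (m.act σ f) = σ (lam i f)) ∧
      ∀ f, (∀ i, lam i f = 0) → f = 0 := by
  obtain ⟨ι, _, b, l, hl⟩ := exists_basis_L m hξ
  have ht := transc m hξ
  let e := RatFunc.algEquivOfTranscendental (algebraMap L M ξ) ht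
  have hrepr : ∀ (σ : Ω ≃ₐ[F] Ω) (f : M) (j : ι),
      b.repr (m.act σ f) j = e (rm (σ : Ω →+* Ω) (e.symm (b.repr f j))) := by
    intro σ f j
    have h1 : m.act σ f = ∑ j, (e (rm (σ : Ω →+* Ω) (e.symm (b.repr f j)))) • b j := by
      conv_lhs => rw [← b.sum_repr f]
      rw [map_sum]
      refine Finset.sum_congr rfl fun j _ => ?_
      rw [Algebra.smul_def, Algebra.smul_def, map_mul, hl, m.act_L]
      congr 1
      have h2 := act_eR m σ ht (e.symm (b.repr f j))
      have h3 : (RatFunc.algEquivOfTranscendental (algebraMap L M ξ) ht) (e.symm (b.repr f j)) =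
        b.repr f j := e.apply_symm_apply _
      rw [h3] at h2
      exact h2
    rw [h1, b.repr_sum_self]
  refine ⟨ι × ℤ, fun p => (lc p.2) ∘ₗ (e.symm.toLinearMap) ∘ₗ ((b.coord p.1).restrictScalars Ω), ?_, ?_⟩
  · rintro ⟨j, n⟩ σ f
    show lc n (e.symm (b.repr (m.act σ f) j)) = σ (lc n (e.symm (b.repr f j)))
    rw [hrepr, AlgEquiv.symm_apply_apply, lc_rm]
    rfl
  · intro f hf
    have h1 : ∀ j, b.repr f j = 0 := by
      intro j
      have h2 : e.symm (b.repr f j) = 0 := eq_zero_of_lc (fun n => hf (j, n))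
      exact (map_eq_zero_iff e.symm e.symm.injective).1 h2
    apply b.repr.injective
    ext j
    rw [h1 j]; simp

end Functionals

end Step
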