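import Pool.Agent.Helper18.Step.Coord

/-! STEP: invariant bases of Riemann-Roch spaces; finite orbits. -/

set_option autoImplicit false
set_option linter.all false
set_option linter.overlappingInstances false

open Module FF SF

namespace Step

variable {F Ω L M : Type} [Field F] [Field Ω] [Algebra F Ω] [Field L] [Algebra F L]
    [Field M] [Algebra Ω M] [Algebra L M] [IsAlgClosed Ω] [CharZero Ω] [CharZero F] [IsFF F L]
    [IsFF Ω M] (m : Model F Ω L M) (ξ : L) (hξ : Transcendental F ξ)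

/-- sum of points -/
noncomputable def pts {ι : Type*} [Fintype ι] (q : ι → Place Ω M) : Place Ω M →₀ ℤ :=
  ∑ i, Finsupp.single (q i) 1

omit [IsAlgClosed Ω] [CharZero Ω] [CharZero F] [IsFF F L] [IsFF Ω M] in
theorem act_inv_act (σ : Ω ≃ₐ[F] Ω) (f : M) : m.act σ⁻¹ (m.act σ f) = f := by
  have h : m.act (σ⁻¹ * σ) = m.act σ⁻¹ * m.act σ := map_mul _ _ _
  rw [inv_mul_cancel, map_one] at h
  have := congrArg (fun e : M ≃+* M => e f) h
  exact this.symm

omit [IsAlgClosed Ω] [CharZero Ω] [CharZero F] [IsFF F L] [IsFF Ω M] in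
theorem act_act_inv (σ : Ω ≃ₐ[F] Ω) (f : M) : m.act σ (m.act σ⁻¹ f) = f := by
  have := act_inv_act m σ⁻¹ f
  rwa [inv_inv] at this

omit [IsAlgClosed Ω] [CharZero Ω] [CharZero F] [IsFF F L] [IsFF Ω M] in
theorem act_mul (σ τ : Ω ≃ₐ[F] Ω) (f : M) : m.act (σ * τ) f = m.act σ (m.act τ f) := by
  rw [map_mul]; rfl

omit [IsAlgClosed Ω] [CharZero Ω] [CharZero F] [IsFF F L] [IsFF Ω M] in
theorem actP_ord' (σ : Ω ≃ₐ[F] Ω) (P : Place Ω M) (f : M) :
    (m.actP σ P).ord f = P.ord (m.act σ⁻¹ f) := by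
  conv_lhs => rw [← act_act_inv m σ f]
  rw [m.actP_ord]

omit [IsAlgClosed Ω] [CharZero Ω] [CharZero F] [IsFF F L] [IsFF Ω M] in
theorem actP_mul (σ τ : Ω ≃ₐ[F] Ω) (P : Place Ω M) :
    m.actP (σ * τ) P = m.actP σ (m.actP τ P) := by
  ext f
  rw [actP_ord', actP_ord', actP_ord', mul_inv_rev, act_mul]

omit [IsAlgClosed Ω] [CharZero Ω] [CharZero F] [IsFF F L] [IsFF Ω M] in
theorem actP_one (P : Place Ω M) : m.actP 1 P = P := by
  ext f
  rw [actP_ord', inv_one, map_one]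
  rfl

omit [IsAlgClosed Ω] [CharZero Ω] [CharZero F] [IsFF F L] [IsFF Ω M] in
theorem actP_act_inv (σ : Ω ≃ₐ[F] Ω) (P : Place Ω M) : m.actP σ (m.actP σ⁻¹ P) = P := by
  rw [← actP_mul, mul_inv_cancel, actP_one]

omit [IsAlgClosed Ω] [CharZero Ω] [CharZero F] [IsFF F L] [IsFF Ω M] in
theorem actP_inv_act (σ : Ω ≃ₐ[F] Ω) (P : Place Ω M) : m.actP σ⁻¹ (m.actP σ P) = P := by
  rw [← actP_mul, inv_mul_cancel, actP_one]

omit [IsAlgClosed Ω] [CharZero F] [IsFF F L] in
theorem act_mem_LL {σ : Ω ≃ₐ[F] Ω} {D : Place Ω M →₀ ℤ} {D' : Place Ω M →₀ ℤ}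
    (hD : ∀ P, D' (m.actP σ P) = D P) {f : M} (hf : f ∈ LL D) : m.act σ f ∈ LL D' := by
  rw [mem_LL] at hf ⊢
  rcases hf with hf | hf
  · left; rw [hf, map_zero]
  · right
    intro P
    have h1 := hf (m.actP σ⁻¹ P)
    rw [← hD, actP_act_inv] at h1
    rw [← m.actP_ord σ, actP_act_inv] at h1
    exact h1

omit [IsAlgClosed Ω] [CharZero F] in
/-- (S2) invariant bases of Riemann-Roch spaces, `H` any set of automorphisms -/
theorem exists_fixed_basis (H : (Ω ≃ₐ[F] Ω) → Prop) (D : Place Ω M →₀ ℤ)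
    (hD : ∀ σ, H σ → ∀ P, D (m.actP σ P) = D P) :
    ∃ b : Basis (Fin (finrank Ω (LL D))) Ω (LL D), ∀ σ, H σ → ∀ j, m.act σ (b j : M) = b j := by
  obtain ⟨ξ, hξ⟩ := IsFF.exists_transcendental (k := F) (K := L)
  obtain ⟨ι, lam, h1, h2⟩ := exists_functionals m hξ
  obtain ⟨b, hb⟩ := SF.descent (H := {σ : Ω ≃ₐ[F] Ω // H σ}) (fun σ => (σ.1 : Ω →+* Ω))
    (fun σ f => m.act σ.1 f) lam (fun i σ v => h1 i σ.1 v) h2 (LL D)
    (fun σ v hv => act_mem_LL m (hD σ.1 σ.2) hv)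
  exact ⟨b, fun σ hσ j => hb j ⟨σ, hσ⟩⟩

/-- (S0) finite orbit => fixed, for elements -/
theorem elt_fixed {K : IntermediateField F Ω} (hK : Closed K) {f : M}
    (hfin : {g | ∃ σ : Ω ≃ₐ[F] Ω, Fx K σ ∧ m.act σ f = g}.Finite) {σ : Ω ≃ₐ[F] Ω} (hσ : Fx K σ) :
    m.act σ f = f := by
  obtain ⟨ξ, hξ⟩ := IsFF.exists_transcendental (k := F) (K := L)
  obtain ⟨ι, lam, h1, h2⟩ := exists_functionals m hξ
  rw [← sub_eq_zero]
  apply h2
  intro i
  rw [map_sub, h1, sub_eq_zero]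
  have h3 : lam i f ∈ K := by
    apply mem_of_finite_orbit hK
    refine (hfin.image (lam i)).subset ?_
    rintro _ ⟨τ, hτ, rfl⟩
    exact ⟨m.act τ f, ⟨τ, hτ, rfl⟩, h1 i τ f⟩
  exact hσ _ h3

omit [CharZero F] in
theorem exists_const_of_reg {f : M} (h : ∀ P : Place Ω M, P.Reg f) : ∃ c : Ω, f = algebraMap Ω M c := by
  by_cases hf : IsAlgebraic Ω f
  · obtain ⟨c, hc⟩ := minpoly.mem_range_of_degree_eq_one Ω f
      (IsAlgClosed.degree_eq_one_of_irreducible Ω (minpoly.irreducible hf.isIntegral))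
    exact ⟨c, hc.symm⟩
  · exfalso
    have h1 := ddeg_polar_pos (k := Ω) hf
    have h2 : polar (k := Ω) f = 0 := by
      ext P
      rw [polar_apply]
      have := h P
      rcases this with h0 | h0
      · exfalso; apply hf; rw [h0]; exact isAlgebraic_zero
      · simp only [Finsupp.coe_zero, Pi.zero_apply]; omega
    rw [h2, ddeg_zero] at h1
    exact lt_irrefl _ h1

/-- (S1) finite orbit => fixed, for places -/
theorem place_fixed {K : IntermediateField F Ω} (hK : Closed K) {P : Place Ω M}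
    (hfin : {Q | ∃ σ : Ω ≃ₐ[F] Ω, Fx K σ ∧ m.actP σ P = Q}.Finite) {σ : Ω ≃ₐ[F] Ω} (hσ : Fx K σ) :
    m.actP σ P = P := by
  classical
  obtain ⟨γ, N, h1, -⟩ := riemann Ω M
  let n : ℤ := max (γ + 2) 0
  let D : Place Ω M →₀ ℤ := Finsupp.single P n
  have hell : 2 ≤ ell D := by
    have h2 := h1 D
    rw [ddeg_single, deg_eq_one] at h2
    have h3 : γ + 2 ≤ n := le_max_left _ _
    push_cast at h2
    omega
  let H : (Ω ≃ₐ[F] Ω) → Prop := fun τ => Fx K τ ∧ m.actP τ P = P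
  obtain ⟨b, hb⟩ := exists_fixed_basis m H D (by
    rintro τ ⟨-, hτ⟩ Q
    show Finsupp.single P n (m.actP τ Q) = Finsupp.single P n Q
    by_cases hQ : Q = P
    · rw [hQ, hτ]
    · have h3 : m.actP τ Q ≠ P := by
        intro h4
        apply hQ
        have h5 := congrArg (m.actP τ⁻¹) h4
        rw [actP_inv_act] at h5
        have h6 := congrArg (m.actP τ⁻¹) hτ
        rw [actP_inv_act] at h6
        rw [h5, ← h6]
      rw [Finsupp.single_eq_of_ne h3, Finsupp.single_eq_of_ne hQ])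
  have hnc : ∃ j, ¬ ∃ c : Ω, (b j : M) = algebraMap Ω M c := by
    by_contra hcon
    push Not at hcon
    have h3 : LL D ≤ Submodule.span Ω {(1 : M)} := by
      intro f hf
      have h4 := b.sum_repr ⟨f, hf⟩
      have h5 := congrArg Subtype.val h4
      simp only [Submodule.coe_sum, Submodule.coe_smul] at h5
      rw [← h5]
      refine Submodule.sum_mem _ fun j _ => Submodule.smul_mem _ _ ?_
      obtain ⟨c, hc⟩ := hcon j
      rw [hc, Submodule.mem_span_singleton]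
      exact ⟨c, by rw [Algebra.smul_def, mul_one]⟩
    have h4 : finrank Ω (LL D) ≤ 1 :=
      (Submodule.finrank_mono h3).trans (finrank_span_singleton (K := Ω) (one_ne_zero (α := M))).le
    unfold ell at hell
    omega
  obtain ⟨j, hj⟩ := hnc
  set f : M := (b j : M) with hf
  have hf0 : f ≠ 0 := by
    intro h0
    apply hj
    exact ⟨0, by rw [h0, map_zero]⟩
  have hfix : ∀ τ : Ω ≃ₐ[F] Ω, Fx K τ → m.act τ f = f := by
    intro τ hτ
    refine elt_fixed m hK ?_ hτ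
    let g : Place Ω M → M := fun Q =>
      if h : ∃ σ : Ω ≃ₐ[F] Ω, Fx K σ ∧ m.actP σ P = Q then m.act h.choose f else 0
    refine (hfin.image g).subset ?_
    rintro _ ⟨ρ, hρ, rfl⟩
    refine ⟨m.actP ρ P, ⟨ρ, hρ, rfl⟩, ?_⟩
    have h : ∃ σ : Ω ≃ₐ[F] Ω, Fx K σ ∧ m.actP σ P = m.actP ρ P := ⟨ρ, hρ, rfl⟩
    show (if h : ∃ σ : Ω ≃ₐ[F] Ω, Fx K σ ∧ m.actP σ P = m.actP ρ P then m.act h.choose f else 0) = _
    rw [dif_pos h]
    obtain ⟨h5, h6⟩ := h.choose_spec
    set ρ' := h.choose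
    have h7 : H (ρ⁻¹ * ρ') := by
      refine ⟨hρ.symm.mul h5, ?_⟩
      rw [actP_mul, h6, actP_inv_act]
    have h8 := hb _ h7 j
    rw [act_mul] at h8
    have h9 := congrArg (m.act ρ) h8
    rw [act_act_inv] at h9
    exact h9
  have hreg : ∀ Q : Place Ω M, Q ≠ P → Q.Reg f := by
    intro Q hQ
    have h3 := (b j).2
    rw [mem_LL] at h3
    rcases h3 with h3 | h3
    · exact Or.inl h3
    · right
      have := h3 Q
      rw [show D Q = 0 from Finsupp.single_eq_of_ne hQ] at this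
      simpa using this
  have hpole : ¬ P.Reg f := by
    intro hP
    apply hj
    apply exists_const_of_reg
    intro Q
    by_cases hQ : Q = P
    · rw [hQ]; exact hP
    · exact hreg Q hQ
  by_contra hne
  have h3 := hreg _ hne
  rw [← hfix σ hσ, m.reg_actP] at h3
  exact hpole h3

/-- (S1'') -/
theorem place_fixed_of_fun {K : IntermediateField F Ω} (hK : Closed K) {P : Place Ω M} {f : M}
    (hf : ∀ σ : Ω ≃ₐ[F] Ω, Fx K σ → m.act σ f = f) (hP : P.ord f ≠ 0) {σ : Ω ≃ₐ[F] Ω}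
    (hσ : Fx K σ) : m.actP σ P = P := by
  refine place_fixed m hK ?_ hσ
  refine (finite_support (k := Ω) f).subset ?_
  rintro _ ⟨τ, hτ, rfl⟩
  show (m.actP τ P).ord f ≠ 0
  rw [← hf τ hτ, m.actP_ord]
  exact hP

include hξ in
/-- (S1') -/
theorem place_fixed_of_val {K : IntermediateField F Ω} (hK : Closed K) {P : Place Ω M}
    (hP : P.Reg (algebraMap L M ξ) → val P (algebraMap L M ξ) ∈ K) {σ : Ω ≃ₐ[F] Ω} (hσ : Fx K σ) :
    m.actP σ P = P := by
  by_cases h : P.Reg (algebraMap L M ξ)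
  · have h1 := hP h
    have h2 := (val_eq_iff P h (val P (algebraMap L M ξ))).1 rfl
    have h3 := transc m hξ
    rcases h2 with h2 | h2
    · exfalso
      apply h3
      rw [h2]
      exact isAlgebraic_algebraMap _
    · refine place_fixed_of_fun m hK (f := algebraMap L M ξ - algebraMap Ω M (val P (algebraMap L M ξ)))
        ?_ h2.ne' hσ
      intro τ hτ
      rw [map_sub, m.act_L, m.act_const, hτ _ h1]
  · refine place_fixed_of_fun m hK (f := algebraMap L M ξ) (fun τ _ => m.act_L τ ξ) ?_ hσ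
    intro h0
    apply h
    right
    rw [h0]

omit [IsFF F L] [IsFF Ω M] in
/-- (S3) coordinates of invariant elements -/
theorem coord_mem {K : IntermediateField F Ω} {ι : Type*} [Finite ι] {W : Submodule Ω M}
    (b : Basis ι Ω W) (hb : ∀ σ : Ω ≃ₐ[F] Ω, Fx K σ → ∀ j, m.act σ (b j : M) = b j) (f : W)
    (hf : ∀ σ : Ω ≃ₐ[F] Ω, Fx K σ → m.act σ (f : M) = f) (j : ι) : b.repr f j ∈ K := by
  have : Fintype ι := Fintype.ofFinite ι
  apply mem_of_fix
  intro σ hσ
  have h1 := b.sum_repr f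
  have h2 : f = ∑ i, σ (b.repr f i) • b i := by
    apply Subtype.ext
    rw [← hf σ hσ]
    have h3 := congrArg Subtype.val h1
    simp only [Submodule.coe_sum, Submodule.coe_smul] at h3 ⊢
    conv_lhs => rw [← h3]
    rw [map_sum]
    refine Finset.sum_congr rfl fun i _ => ?_
    rw [act_smul, hb σ hσ]
  have h4 := congrArg (fun g => b.repr g j) h2
  simp only [b.repr_sum_self] at h4
  exact h4.symm

end Step
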