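import Pool.Agent.Helper18.Step.Tw

/-! STEP: the generic element of the invariant form. -/

set_option autoImplicit false
set_option linter.all false
set_option linter.overlappingInstances false

open Module FF SF

namespace Step

variable {F Ω L M : Type} [Field F] [Field Ω] [Algebra F Ω] [Field L] [Algebra F L]
    [Field M] [Algebra Ω M] [Algebra L M] [IsAlgClosed Ω] [CharZero Ω] [CharZero F] [IsFF F L]
    [IsFF Ω M] (m : Model F Ω L M)

omit [IsAlgClosed Ω] [CharZero Ω] [IsFF Ω M] in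
theorem pts_finset_apply (Z : Finset (Place Ω M)) (P : Place Ω M) [Decidable (P ∈ Z)] :
    pts (fun P : Z => P.1) P = if P ∈ Z then 1 else 0 := by
  classical
  unfold pts
  rw [Finsupp.finsetSum_apply]
  have h : ∀ i : Z, (Finsupp.single i.1 (1 : ℤ)) P = if i.1 = P then 1 else 0 := by
    intro i
    rw [Finsupp.single_apply]
  simp only [h]
  rw [Finset.sum_coe_sort Z (fun i => if i = P then (1 : ℤ) else 0)]
  rw [Finset.sum_ite_eq' Z P]
  congr

omit [IsAlgClosed Ω] [CharZero Ω] [CharZero F] [IsFF F L] [IsFF Ω M] in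
theorem stable_iff (S : Set (Place Ω M)) {E : IntermediateField F Ω}
    (h : ∀ σ : Ω ≃ₐ[F] Ω, Fx E σ → ∀ P ∈ S, m.actP σ P ∈ S) {σ : Ω ≃ₐ[F] Ω} (hσ : Fx E σ)
    (P : Place Ω M) : m.actP σ P ∈ S ↔ P ∈ S := by
  constructor
  · intro h1
    have h2 := h σ⁻¹ hσ.symm _ h1
    rwa [actP_inv_act] at h2
  · exact h σ hσ P

omit [IsAlgClosed Ω] [CharZero Ω] [CharZero F] [IsFF F L] [IsFF Ω M] in
theorem supp_fixed {K : IntermediateField F Ω} (A : Place Ω M →₀ ℤ)
    (hA : ∀ P ∈ A.support, ∀ σ : Ω ≃ₐ[F] Ω, Fx K σ → m.actP σ P = P) {σ : Ω ≃ₐ[F] Ω} (hσ : Fx K σ)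
    (P : Place Ω M) : A (m.actP σ P) = A P := by
  by_cases hP : P ∈ A.support
  · rw [hA P hP σ hσ]
  · have h1 : m.actP σ P ∉ A.support := by
      intro h2
      have h3 := hA _ h2 σ⁻¹ hσ.symm
      rw [actP_inv_act] at h3
      apply hP
      rw [h3]
      exact h2
    rw [Finsupp.notMem_support_iff.1 hP, Finsupp.notMem_support_iff.1 h1]

omit [CharZero F] [IsFF F L] in
theorem mul_mem_LL {D : Place Ω M →₀ ℤ} {f g : M} (hg : g ≠ 0) (hf : f ∈ LL D) :
    g * f ∈ LL (D - divisor Ω g) := by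
  rw [mem_LL] at hf ⊢
  rcases hf with hf | hf
  · left; rw [hf, mul_zero]
  · by_cases hf0 : f = 0
    · left; rw [hf0, mul_zero]
    · right
      intro P
      rw [P.ord_mul hg hf0, Finsupp.sub_apply, divisor_apply]
      have := hf P
      omega

theorem cl_empty_le (K : IntermediateField F Ω) (hK : Closed K) : cl F (∅ : Set Ω) ≤ K :=
  cl_le hK (Set.empty_subset _)

theorem twist_zero {β : Ω} (hβ0 : β ≠ 0) {z : F} (hz : IsPrimitiveRoot z 3) {j : ZMod 3}
    (h : algebraMap F Ω (zp z j) * β = β) : j = 0 := by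
  have h1 : algebraMap F Ω (zp z j) = 1 := by
    apply mul_right_cancel₀ hβ0
    rw [h, one_mul]
  have h2 : zp z j = 1 := by
    apply (algebraMap F Ω).injective
    rw [h1, map_one]
  exact zp_inj hz (by rw [h2, zp_zero])

theorem side_gen [Countable F] (β : Ω) (hβ0 : β ≠ 0) (hβF : β ∈ cl F (∅ : Set Ω)) (z : F)
    (hz : IsPrimitiveRoot z 3) (c : (Ω ≃ₐ[F] Ω) → ZMod 3)
    (hc : ∀ σ, σ β = algebraMap F Ω (zp z (c σ)) * β)
    (E : IntermediateField F Ω)
    (big : ∀ Λ : Subfield Ω, Countable Λ → ∃ c ∈ E, Transcendental Λ c)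
    (hs : ZMod 3 → M) (hs0 : ∀ j, hs j ≠ 0)
    (hsF : ∀ σ, Fx (cl F (∅ : Set Ω)) σ → ∀ j, m.act σ (hs j) = hs j)
    (A : ZMod 3 → (Place Ω M →₀ ℤ)) (hdiv : ∀ j, divisor Ω (hs j) = A j - A (j + 1))
    (hAE : ∀ σ, Fx E σ → ∀ j P, A (j + c σ) (m.actP σ P) = A j P)
    (hAF : ∀ j, ∀ P ∈ (A j).support, ∀ σ : Ω ≃ₐ[F] Ω, Fx (cl F (∅ : Set Ω)) σ → m.actP σ P = P)
    (K : IntermediateField F Ω) (hKc : Closed K) (hKcount : Countable K)
    (ZD : Place Ω M →₀ ℤ) (hZDE : ∀ σ, Fx E σ → ∀ P, ZD (m.actP σ P) = ZD P)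
    (hZDK : ∀ σ, Fx K σ → ∀ P, ZD (m.actP σ P) = ZD P)
    (l : ℕ) (b : Basis (Fin l) Ω (LL (ZD - A 0)))
    (hb : ∀ σ, Fx K σ → ∀ j, m.act σ (b j : M) = b j) :
    ∃ w : ZMod 3 → M, (∀ j, w j ∈ LL (ZD - A j)) ∧
      (∀ σ, Fx E σ → ∀ j, m.act σ (w j) = w (j + c σ)) ∧
      ∃ v : ZMod 3 → LL (ZD - A 0), (v 0 : M) = w 0 ∧
        (v 1 : M) = hs 0 * w 1 ∧ (v 2 : M) = hs 0 * hs 1 * w 2 ∧
        AlgebraicIndependent K (fun p : ZMod 3 × Fin l => b.repr (v p.1) p.2) := by
  classical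
  have hKF : cl F (∅ : Set Ω) ≤ K := cl_empty_le K hKc
  have hz3 : z ^ 3 = 1 := hz.pow_eq_one
  have hcK : ∀ σ, Fx K σ → c σ = 0 := by
    intro σ hσ
    apply twist_zero hβ0 hz
    rw [← hc]
    exact hσ _ (hKF hβF)
  let bet : ZMod 3 → Ω := fun j => algebraMap F Ω (zp z j) * β
  have hbet : Function.Injective bet := by
    intro i j h
    have h1 := mul_right_cancel₀ hβ0 h
    exact zp_inj hz ((algebraMap F Ω).injective h1)
  have hcbet : ∀ (σ : Ω ≃ₐ[F] Ω) j, σ (bet j) = bet (j + c σ) := by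
    intro σ j
    show σ (algebraMap F Ω (zp z j) * β) = algebraMap F Ω (zp z (j + c σ)) * β
    rw [map_mul, AlgEquiv.commutes, hc, zp_add hz3, map_mul, mul_assoc]
  let D : ZMod 3 → (Place Ω M →₀ ℤ) := fun j => ZD - A j
  obtain ⟨B, hB⟩ := tw_descent m bet hbet c hcbet (fun σ => Fx E σ ∨ Fx K σ) D (by
    intro σ hσ j P
    show (ZD - A (j + c σ)) (m.actP σ P) = (ZD - A j) P
    rw [Finsupp.sub_apply, Finsupp.sub_apply]
    rcases hσ with hσ | hσ
    · rw [hZDE σ hσ, hAE σ hσ]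
    · rw [hZDK σ hσ, hcK σ hσ, add_zero, supp_fixed m (A j) (hAF j) (hσ.mono hKF)])
  obtain ⟨e, heE, he⟩ := exists_generic_big E big K (Fin (finrank Ω (VV D)))
  set w : VV D := ∑ s, e s • B s with hw
  have hwcoe : ∀ j, (w : ZMod 3 → M) j = ∑ s, e s • (B s : ZMod 3 → M) j := by
    intro j
    rw [hw]
    simp only [Submodule.coe_sum, Submodule.coe_smul, Finset.sum_apply, Pi.smul_apply]
  have hwmem : ∀ j, (w : ZMod 3 → M) j ∈ LL (ZD - A j) := mem_VV.1 w.2
  have hwE : ∀ σ, Fx E σ → ∀ j, m.act σ ((w : ZMod 3 → M) j) = (w : ZMod 3 → M) (j + c σ) := by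
    intro σ hσ j
    rw [hwcoe, hwcoe, map_sum]
    refine Finset.sum_congr rfl fun s _ => ?_
    rw [act_smul, hB σ (Or.inl hσ), hσ _ (heE s)]
  let hp : ZMod 3 → M := fun j => if j = 0 then 1 else if j = 1 then hs 0 else hs 0 * hs 1
  have hpA : hp 0 = 1 := if_pos rfl
  have hpB : hp 1 = hs 0 := by
    show (if (1 : ZMod 3) = 0 then (1 : M) else if (1 : ZMod 3) = 1 then hs 0 else hs 0 * hs 1) = _
    rw [if_neg (by decide), if_pos rfl]
  have hpC : hp 2 = hs 0 * hs 1 := by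
    show (if (2 : ZMod 3) = 0 then (1 : M) else if (2 : ZMod 3) = 1 then hs 0 else hs 0 * hs 1) = _
    rw [if_neg (by decide), if_neg (by decide)]
  have hcases : ∀ j : ZMod 3, j = 0 ∨ j = 1 ∨ j = 2 := by decide
  have hp0 : ∀ j, hp j ≠ 0 := by
    intro j
    rcases hcases j with rfl | rfl | rfl
    · rw [hpA]; exact one_ne_zero
    · rw [hpB]; exact hs0 0
    · rw [hpC]; exact mul_ne_zero (hs0 0) (hs0 1)
  have hpdiv : ∀ j, divisor Ω (hp j) = A 0 - A j := by
    intro j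
    rcases hcases j with rfl | rfl | rfl
    · rw [hpA, sub_self]
      ext P
      rw [divisor_apply, P.ord_one]
      rfl
    · rw [hpB, hdiv, zero_add]
    · rw [hpC, divisor_mul (hs0 0) (hs0 1), hdiv, hdiv, zero_add]
      have : (1 + 1 : ZMod 3) = 2 := by decide
      rw [this]
      abel
  have hpfix : ∀ σ, Fx K σ → ∀ j, m.act σ (hp j) = hp j := by
    intro σ hσ j
    have h1 := hsF σ (hσ.mono hKF)
    rcases hcases j with rfl | rfl | rfl
    · rw [hpA]; exact map_one _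
    · rw [hpB]; exact h1 0
    · rw [hpC, map_mul, h1, h1]
  have hvmem : ∀ (f : VV D) (j : ZMod 3), hp j * (f : ZMod 3 → M) j ∈ LL (ZD - A 0) := by
    intro f j
    have h1 := mul_mem_LL (hp0 j) (mem_VV.1 f.2 j)
    rw [hpdiv] at h1
    have h2 : D j - (A 0 - A j) = ZD - A 0 := by
      show (ZD - A j) - (A 0 - A j) = ZD - A 0
      abel
    rwa [h2] at h1
  let v : ZMod 3 → LL (ZD - A 0) := fun j => ⟨hp j * (w : ZMod 3 → M) j, hvmem w j⟩
  have hb'mem : ∀ p : ZMod 3 × Fin l,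
      (fun i : ZMod 3 => if i = p.1 then (hp p.1)⁻¹ * (b p.2 : M) else 0) ∈ VV D := by
    intro p
    rw [mem_VV]
    intro i
    by_cases hi : i = p.1
    · have h1 := mul_mem_LL (inv_ne_zero (hp0 p.1)) (b p.2).2
      rw [divisor_inv, hpdiv] at h1
      have h2 : (ZD - A 0) - -(A 0 - A p.1) = D p.1 := by
        show _ = ZD - A p.1
        abel
      rw [h2] at h1
      rw [if_pos hi, hi]
      exact h1
    · rw [if_neg hi]
      exact zero_mem _
  let b' : ZMod 3 × Fin l → VV D := fun p => ⟨_, hb'mem p⟩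
  have hb'coe : ∀ p i, (b' p : ZMod 3 → M) i = if i = p.1 then (hp p.1)⁻¹ * (b p.2 : M) else 0 :=
    fun _ _ => rfl
  have hsumb' : ∀ a : ZMod 3 × Fin l → Ω, ∀ i : ZMod 3,
      hp i * ((∑ p, a p • b' p : VV D) : ZMod 3 → M) i = ∑ k, a (i, k) • (b k : M) := by
    intro a i
    simp only [Submodule.coe_sum, Submodule.coe_smul, Finset.sum_apply, Pi.smul_apply, hb'coe]
    rw [Fintype.sum_prod_type, Finset.sum_eq_single i]
    · simp only [if_true]
      rw [Finset.mul_sum]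
      refine Finset.sum_congr rfl fun k _ => ?_
      rw [mul_smul_comm, mul_inv_cancel_left₀ (hp0 i)]
    · intro j _ hj
      apply Finset.sum_eq_zero
      intro k _
      rw [if_neg (Ne.symm hj), smul_zero]
    · intro h; exact absurd (Finset.mem_univ i) h
  have hli : LinearIndependent Ω b' := by
    rw [Fintype.linearIndependent_iff]
    intro a ha p
    have h1 := hsumb' a p.1
    rw [ha] at h1
    have h2 : (∑ k, a (p.1, k) • b k : LL (ZD - A 0)) = 0 := by
      apply Subtype.ext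
      simp only [Submodule.coe_sum, Submodule.coe_smul]
      rw [← h1]
      show hp p.1 * (0 : M) = 0
      rw [mul_zero]
    have h3 := Fintype.linearIndependent_iff.1 b.linearIndependent (fun k => a (p.1, k)) h2 p.2
    exact h3
  set a : ZMod 3 × Fin l → Ω := fun p => b.repr (v p.1) p.2 with ha
  have hwa : w = ∑ p, a p • b' p := by
    apply Subtype.ext
    funext i
    apply mul_left_cancel₀ (hp0 i)
    rw [hsumb' a i]
    have h1 := congrArg Subtype.val (b.sum_repr (v i))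
    simp only [Submodule.coe_sum, Submodule.coe_smul] at h1
    exact h1.symm
  have hBmem : ∀ f : VV D, (∀ σ, Fx K σ → ∀ j, m.act σ ((f : ZMod 3 → M) j) = (f : ZMod 3 → M) j) →
      ∀ s, B.repr f s ∈ K := by
    intro f hf s
    apply mem_of_fix
    intro σ hσ
    have h2 : f = ∑ s, σ (B.repr f s) • B s := by
      apply Subtype.ext
      funext j
      rw [← hf σ hσ j]
      have h3 := congrFun (congrArg Subtype.val (B.sum_repr f)) j
      simp only [Submodule.coe_sum, Submodule.coe_smul, Finset.sum_apply, Pi.smul_apply] at h3 ⊢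
      conv_lhs => rw [← h3]
      rw [map_sum]
      refine Finset.sum_congr rfl fun i _ => ?_
      rw [act_smul, hB σ (Or.inr hσ), hcK σ hσ, add_zero]
    have h4 := congrArg (fun g => B.repr g s) h2
    simp only [B.repr_sum_self] at h4
    exact h4.symm
  have hb'fix : ∀ p, ∀ σ, Fx K σ → ∀ j, m.act σ ((b' p : ZMod 3 → M) j) = (b' p : ZMod 3 → M) j := by
    intro p σ hσ j
    rw [hb'coe]
    split_ifs
    · rw [map_mul, map_inv₀, hpfix σ hσ, hb σ hσ]
    · exact map_zero _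
  have hes : ∀ s, e s = ∑ p, a p * B.repr (b' p) s := by
    intro s
    have h1 : B.repr w s = e s := by
      rw [hw, B.repr_sum_self]
    rw [← h1, hwa, map_sum, Finsupp.finsetSum_apply]
    refine Finset.sum_congr rfl fun p _ => ?_
    rw [map_smul, Finsupp.smul_apply, smul_eq_mul]
  have hind : AlgebraicIndependent K a := by
    apply span_ind he
    · intro s
      have h1 : e s ∈ IntermediateField.adjoin K (Set.range a) := by
        rw [hes]
        refine sum_mem fun p _ => mul_mem ?_ ?_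
        · exact IntermediateField.subset_adjoin _ _ ⟨p, rfl⟩
        · exact (IntermediateField.adjoin K (Set.range a)).algebraMap_mem
            ⟨_, hBmem _ (hb'fix p) s⟩
      exact isAlgebraic_algebraMap (⟨e s, h1⟩ : IntermediateField.adjoin K (Set.range a))
    · rw [Fintype.card_fin]
      exact hli.fintype_card_le_finrank
  refine ⟨w, hwmem, hwE, v, ?_, ?_, ?_, hind⟩
  · show hp 0 * (w : ZMod 3 → M) 0 = _
    rw [hpA, one_mul]
  · show hp 1 * (w : ZMod 3 → M) 1 = _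
    rw [hpB]
  · show hp 2 * (w : ZMod 3 → M) 2 = _
    rw [hpC]

end Step
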